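import Mathlib
import Pool.Agent.H808R2.AH.Problem
import Pool.Agent.H808R2.AH.Final

/-!
MP_039ae7_nt, Q1 (disproof): the conditions (a)-(c) do not determine `p(5/2)`.

Proof: the discrete sine process on the half-integers has independent fair spins on the even sublattice; tilting it by
a six-body interaction with far Fourier support keeps all correlations with Fourier support in `∑ |ξ_i| < 2` but
changes the frequency of the pattern `1 0 0 0 0 1`.
-/

namespace Pool.Agent.Results.MP_039ae7_nt.SpacingNotDetermined
open Pool.Agent.H808R2.AH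

theorem result :
    (∃ x y : ℕ → ℝ, InS x ∧ InS y ∧ pMinus x (5 / 2) = pPlus x (5 / 2) ∧ pPlus x (5 / 2) < pMinus y (5 / 2)) ∧
    ¬ ∀ k : ℕ, 1 ≤ k → Determined ((k : ℝ) / 2) := by
  refine ⟨main_thm, fun h => not_determined_of main_thm ?_⟩
  have h5 := h 5 (by norm_num)
  norm_num at h5
  exact h5

end Pool.Agent.Results.MP_039ae7_nt.SpacingNotDetermined
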